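import Pool.Agent.H7.LP.Targets3
import Pool.Agent.H51.LP.DRR

/-!
# Row DRQ of the board lpq_modules: common lower nodes
-/

set_option autoImplicit false

open Set Filter Topology

namespace Pool.Agent.H61.LQ

open Pool.Agent.H93.CP Pool.Agent.H7.LP Pool.Agent.H7.LQ Pool.Agent.H51.LP

theorem pf_DRQ (h1 : Pool.Agent.H7.LP.T_LAB) (h2 : T_LBT) (h3 : T_KKA) : T_DRQ := by
  intro G X _ _ _ _ _ _ B L M _ Y S x v₁ v₂ m n₁ n₂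
  obtain ⟨k₁, m₁, g₁⟩ := v₁
  obtain ⟨k₂, m₂, g₂⟩ := v₂
  obtain ⟨a₁, ha₁, hb₁⟩ := L.conj g₁ k₁
  obtain ⟨a₂, ha₂, hb₂⟩ := L.conj g₂ k₂
  obtain ⟨l, hl⟩ : ∃ l : ℕ, l = max m (max a₁ a₂) := ⟨_, rfl⟩
  have hm : m ≤ l := by omega
  have hla₁ : a₁ ≤ l := by omega
  have hla₂ : a₂ ≤ l := by omega
  obtain ⟨b1, b2, b3, -⟩ := h2 G X L M Y l x 1
  obtain ⟨h, hh, hcan⟩ := S.ex l (lb L Y l x 1) b1 b2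
  rw [← b3 h hh, mul_one] at hcan
  have hp := L.piece l
  have cH₁ : ∀ a ∈ L.H l, g₁ * a * g₁⁻¹ ∈ L.H k₁ := fun a ha => ha₁ a (antH_le L hla₁ ha)
  have cR₁ : ∀ a ∈ L.R l, g₁ * a * g₁⁻¹ ∈ L.R k₁ := fun a ha => hb₁ a (antR_le L hla₁ ha)
  have cH₂ : ∀ a ∈ L.H l, g₂ * a * g₂⁻¹ ∈ L.H k₂ := fun a ha => ha₂ a (antH_le L hla₂ ha)
  have cR₂ : ∀ a ∈ L.R l, g₂ * a * g₂⁻¹ ∈ L.R k₂ := fun a ha => hb₂ a (antR_le L hla₂ ha)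
  have nH : ∀ a ∈ L.H l, h⁻¹ * a * h ∈ L.H l := fun a ha =>
    (L.H l).mul_mem ((L.H l).mul_mem ((L.H l).inv_mem hh) ha) hh
  have nR : ∀ a ∈ L.R l, h⁻¹ * a * h ∈ L.R l := fun a ha => by
    have := hp.nor h⁻¹ ((L.H l).inv_mem hh) a ha
    rwa [inv_inv] at this
  have eq : ∀ g a : G, g * h⁻¹ * a * (g * h⁻¹)⁻¹ = g * (h⁻¹ * a * h) * g⁻¹ := fun g a => by group
  obtain ⟨c1, c2, -, -⟩ := h2 G X L M Y l x h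
  obtain ⟨d1, d2, -, -⟩ := h2 G X L M Y k₁ x g₁
  obtain ⟨e1, e2, -, -⟩ := h2 G X L M Y k₂ x g₂
  obtain ⟨p1, p2, p3, -, -, -⟩ := h3 G B (L.R k₁) (L.H k₁) (lb L Y k₁ x g₁) (L.piece k₁) d1 d2
  obtain ⟨q1, q2, q3, -, -, -⟩ := h3 G B (L.R k₂) (L.H k₂) (lb L Y k₂ x g₂) (L.piece k₂) e1 e2
  obtain ⟨r1, r2, r3, -, -, r6⟩ := h3 G B (L.R l) (L.H l) (lb L Y l x h) hp c1 c2
  obtain ⟨D, hD⟩ : ∃ D, D = Stb (L.H l) (lb L Y l x h) := ⟨_, rfl⟩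
  have RD : L.R l ≤ D := by
    rw [hD]
    exact (r1 0).trans (r2 0)
  have key₁ : ∀ d ∈ D, g₁ * h⁻¹ * d * (g₁ * h⁻¹)⁻¹ ∈ Stb (L.H k₁) (lb L Y k₁ x g₁) := by
    intro d hd
    rw [hD] at hd
    exact conj_Stb h1 hp (L.piece _) _ hh cH₁ cR₁ hd
  have key₂ : ∀ d ∈ D, g₂ * h⁻¹ * d * (g₂ * h⁻¹)⁻¹ ∈ Stb (L.H k₂) (lb L Y k₂ x g₂) := by
    intro d hd
    rw [hD] at hd
    exact conj_Stb h1 hp (L.piece _) _ hh cH₂ cR₂ hd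
  obtain ⟨O, hO⟩ : ∃ O, O = D ⊓ (cj (g₁ * h⁻¹) (KX B L Y k₁ m₁ x g₁) ⊓
    cj (g₂ * h⁻¹) (KX B L Y k₂ m₂ x g₂)) := ⟨_, rfl⟩
  have OD : O ≤ D := by
    rw [hO]
    exact inf_le_left
  have O₁ : ∀ a ∈ O, g₁ * h⁻¹ * a * (g₁ * h⁻¹)⁻¹ ∈ KX B L Y k₁ m₁ x g₁ := by
    intro a ha
    rw [hO] at ha
    exact mem_cj.1 ha.2.1
  have O₂ : ∀ a ∈ O, g₂ * h⁻¹ * a * (g₂ * h⁻¹)⁻¹ ∈ KX B L Y k₂ m₂ x g₂ := by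
    intro a ha
    rw [hO] at ha
    exact mem_cj.1 ha.2.2
  have RO : L.R l ≤ O := by
    intro r hr
    rw [hO]
    refine ⟨RD hr, mem_cj.2 ?_, mem_cj.2 ?_⟩
    · rw [eq]
      exact p1 m₁ (cR₁ _ (nR r hr))
    · rw [eq]
      exact q1 m₂ (cR₂ _ (nR r hr))
  have Oop : OpenIn O D := by
    obtain ⟨U₁, hU₁, hV₁⟩ := p3 m₁
    obtain ⟨U₂, hU₂, hV₂⟩ := q3 m₂
    have pre : ∀ (g : G), ∀ U ∈ 𝓝 (1 : G),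
        (fun a : G => g * h⁻¹ * a * (g * h⁻¹)⁻¹) ⁻¹' U ∈ 𝓝 (1 : G) := by
      intro g U hU
      have hc : Continuous fun a : G => g * h⁻¹ * a * (g * h⁻¹)⁻¹ := by fun_prop
      refine hc.continuousAt.preimage_mem_nhds ?_
      have : g * h⁻¹ * 1 * (g * h⁻¹)⁻¹ = 1 := by group
      rw [this]
      exact hU
    refine ⟨_, Filter.inter_mem (pre g₁ U₁ hU₁) (pre g₂ U₂ hU₂), ?_⟩
    intro a ha hau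
    rw [hO]
    exact ⟨ha, mem_cj.2 (hV₁ _ (key₁ a ha) hau.1), mem_cj.2 (hV₂ _ (key₂ a ha) hau.2)⟩
  rw [hD] at OD Oop
  obtain ⟨m', KO, Kt⟩ := r6 O RO OD Oop
  have inv : ∀ g a : G, (h * g⁻¹)⁻¹ * a * (h * g⁻¹) = g * h⁻¹ * a * (g * h⁻¹)⁻¹ :=
    fun g a => by group
  refine ⟨(l, m', h), ⟨hcan, Kt⟩, hm, hh, ⟨?_, ?_, ?_⟩, ⟨?_, ?_, ?_⟩⟩
  · intro a ha
    show (h * g₁⁻¹)⁻¹ * a * (h * g₁⁻¹) ∈ _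
    rw [inv]
    exact O₁ a (KO ha)
  · intro a ha
    show (h * g₁⁻¹)⁻¹ * a * (h * g₁⁻¹) ∈ _
    rw [inv, eq]
    exact cR₁ _ (nR a ha)
  · intro a ha
    show (h * g₁⁻¹)⁻¹ * a * (h * g₁⁻¹) ∈ _
    rw [inv, eq]
    exact cH₁ _ (nH a ha)
  · intro a ha
    show (h * g₂⁻¹)⁻¹ * a * (h * g₂⁻¹) ∈ _
    rw [inv]
    exact O₂ a (KO ha)
  · intro a ha
    show (h * g₂⁻¹)⁻¹ * a * (h * g₂⁻¹) ∈ _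
    rw [inv, eq]
    exact cR₂ _ (nR a ha)
  · intro a ha
    show (h * g₂⁻¹)⁻¹ * a * (h * g₂⁻¹) ∈ _
    rw [inv, eq]
    exact cH₂ _ (nH a ha)

end Pool.Agent.H61.LQ
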