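import Pool.Agent.H69.LQ.Lib

set_option autoImplicit false

open MeasureTheory Metric Set
open scoped ENNReal
open Pool.Agent.H85.LK (E adm lam Ann)
open Pool.Agent.H69.LQ

namespace Pool.Agent.H61.LQ

/-- the quadratic form -/
def qf {N : ℕ} (a : Fin N → Fin N → ℝ) (x : E N) : ℝ := ∑ j, ∑ k, a j k * (x j * x k)

theorem hasF_coord {N : ℕ} (j : Fin N) (x : E N) :
    HasFDerivAt (fun y : E N => y j) (EuclideanSpace.proj j : E N →L[ℝ] ℝ) x :=
  (EuclideanSpace.proj j : E N →L[ℝ] ℝ).hasFDerivAt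

theorem projv {N : ℕ} (k : Fin N) (v : E N) :
    (EuclideanSpace.proj k : E N →L[ℝ] ℝ) v = v k := rfl

theorem qf_contDiff {N : ℕ} (a : Fin N → Fin N → ℝ) : ContDiff ℝ (⊤ : ℕ∞) (qf a) := by
  unfold qf
  fun_prop

theorem qf_fderiv {N : ℕ} (a : Fin N → Fin N → ℝ) (x v : E N) :
    fderiv ℝ (qf a) x v = ∑ j, ∑ k, a j k * (x j * v k + v j * x k) := by
  have h : HasFDerivAt (qf a) (∑ j, ∑ k, a j k • (x j • (EuclideanSpace.proj k : E N →L[ℝ] ℝ) +
      x k • (EuclideanSpace.proj j : E N →L[ℝ] ℝ))) x := by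
    unfold qf
    refine HasFDerivAt.fun_sum fun j _ => HasFDerivAt.fun_sum fun k _ => ?_
    exact ((hasF_coord j x).mul (hasF_coord k x)).const_mul (a j k)
  rw [h.fderiv]
  simp only [sum_apply, smul_apply, add_apply, projv, smul_eq_mul]
  refine Finset.sum_congr rfl fun j _ => Finset.sum_congr rfl fun k _ => ?_
  ring

/-- the cubic form -/
def hf {N : ℕ} (T : Fin N → Fin N → Fin N → ℝ) (x : E N) : ℝ := ∑ i, x i * qf (T i) x

theorem hf_contDiff {N : ℕ} (T : Fin N → Fin N → Fin N → ℝ) : ContDiff ℝ (⊤ : ℕ∞) (hf T) := by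
  unfold hf
  have h := fun i => qf_contDiff (T i)
  fun_prop

theorem hf_fderiv {N : ℕ} (T : Fin N → Fin N → Fin N → ℝ) (x v : E N) :
    fderiv ℝ (hf T) x v = ∑ i, (v i * qf (T i) x + x i * fderiv ℝ (qf (T i)) x v) := by
  have h : HasFDerivAt (hf T) (∑ i, (x i • fderiv ℝ (qf (T i)) x +
      qf (T i) x • (EuclideanSpace.proj i : E N →L[ℝ] ℝ))) x := by
    unfold hf
    refine HasFDerivAt.fun_sum fun i _ => ?_
    exact (hasF_coord i x).mul
      (((qf_contDiff (T i)).differentiable (by simp)) x).hasFDerivAt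
  rw [h.fderiv]
  simp only [sum_apply, smul_apply, add_apply, projv, smul_eq_mul]
  refine Finset.sum_congr rfl fun i _ => ?_
  ring

theorem qf_euler {N : ℕ} (a : Fin N → Fin N → ℝ) (x : E N) : fderiv ℝ (qf a) x x = 2 * qf a x := by
  rw [qf_fderiv]
  unfold qf
  rw [Finset.mul_sum]
  refine Finset.sum_congr rfl fun j _ => ?_
  rw [Finset.mul_sum]
  refine Finset.sum_congr rfl fun k _ => ?_
  ring

theorem hf_euler {N : ℕ} (T : Fin N → Fin N → Fin N → ℝ) (x : E N) :
    fderiv ℝ (hf T) x x = 3 * hf T x := by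
  rw [hf_fderiv]
  unfold hf
  rw [Finset.mul_sum]
  refine Finset.sum_congr rfl fun j _ => ?_
  rw [qf_euler]
  ring

theorem qf_single {N : ℕ} (a : Fin N → Fin N → ℝ) (x : E N) (i : Fin N) :
    fderiv ℝ (qf a) x (EuclideanSpace.single i 1) = ∑ j, a j i * x j + ∑ k, a i k * x k := by
  rw [qf_fderiv]
  have h : ∀ j k : Fin N, a j k * (x j * (EuclideanSpace.single i (1 : ℝ) : E N) k +
      (EuclideanSpace.single i (1 : ℝ) : E N) j * x k) =
      (if k = i then a j k * x j else 0) + (if j = i then a j k * x k else 0) := by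
    intro j k
    rw [PiLp.single_apply, PiLp.single_apply]
    split_ifs <;> ring
  simp only [h, Finset.sum_add_distrib]
  congr 1
  · refine Finset.sum_congr rfl fun j _ => ?_
    simp
  · rw [Finset.sum_comm]
    refine Finset.sum_congr rfl fun j _ => ?_
    simp

variable {N : ℕ} {T : Fin N → Fin N → Fin N → ℝ}

theorem hf_single (h1 : ∀ i j k, T i j k = T j i k) (h2 : ∀ i j k, T i j k = T i k j)
    (x : E N) (i : Fin N) :
    fderiv ℝ (hf T) x (EuclideanSpace.single i 1) = 3 * qf (T i) x := by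
  rw [hf_fderiv, Finset.sum_add_distrib]
  have e1 : ∑ l, (EuclideanSpace.single i (1 : ℝ) : E N) l * qf (T l) x = qf (T i) x := by
    rw [Finset.sum_eq_single i]
    · simp
    · intro l _ hl
      rw [PiLp.single_apply, if_neg hl, zero_mul]
    · intro h
      exact absurd (Finset.mem_univ i) h
  have e2 : ∑ l, x l * fderiv ℝ (qf (T l)) x (EuclideanSpace.single i 1) = 2 * qf (T i) x := by
    have e3 : ∀ l, x l * fderiv ℝ (qf (T l)) x (EuclideanSpace.single i 1) =
        2 * ∑ j, T i l j * (x l * x j) := by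
      intro l
      rw [qf_single]
      have e4 : ∑ j, T l j i * x j = ∑ k, T l i k * x k :=
        Finset.sum_congr rfl fun j _ => by rw [h2 l j i]
      rw [e4, ← two_mul, ← mul_assoc, mul_comm (x l) 2, mul_assoc, Finset.mul_sum]
      congr 1
      refine Finset.sum_congr rfl fun j _ => ?_
      rw [h1 l i j]
      ring
    simp only [e3]
    rw [← Finset.mul_sum]
    rfl
  rw [e1, e2]
  ring

theorem trace_zero (h1 : ∀ i j k, T i j k = T j i k) (h2 : ∀ i j k, T i j k = T i k j)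
    (h3 : ∀ i, ∑ j, T i j j = 0) (x : E N) :
    ∑ i, fderiv ℝ (qf (T i)) x (EuclideanSpace.single i 1) = 0 := by
  have e : ∀ i, fderiv ℝ (qf (T i)) x (EuclideanSpace.single i 1) =
      ∑ k, 2 * (T k i i * x k) := by
    intro i
    rw [qf_single, ← Finset.sum_add_distrib]
    refine Finset.sum_congr rfl fun k _ => ?_
    rw [h2 i k i, h2 i i k, h1 i k i]
    ring
  simp only [e]
  rw [Finset.sum_comm]
  refine Finset.sum_eq_zero fun k _ => ?_
  rw [← Finset.mul_sum, ← Finset.sum_mul, h3 k]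
  ring

theorem hf_eq (x : E N) :
    ∑ i, ∑ j, ∑ k, T i j k * (x i * x j * x k) = hf T x := by
  unfold hf qf
  refine Finset.sum_congr rfl fun i _ => ?_
  rw [Finset.mul_sum]
  refine Finset.sum_congr rfl fun j _ => ?_
  rw [Finset.mul_sum]
  refine Finset.sum_congr rfl fun k _ => ?_
  ring

theorem qf_sq (hN : 2 ≤ N) (hMO : T_MO) (h3 : ∀ i, ∑ j, T i j j = 0)
    (h2 : ∀ i j k, T i j k = T i k j) (i : Fin N) :
    av (fun θ : Sp N => qf (T i) (θ : E N) ^ 2) =
      2 * (∑ j, ∑ k, T i j k ^ 2) / ((N : ℝ) * (N + 2)) := by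
  have hm := (hMO N hN).2.2.2.2
  have e1 : (fun θ : Sp N => qf (T i) (θ : E N) ^ 2) = fun θ : Sp N => ∑ j, ∑ k, ∑ l, ∑ m,
      T i j k * T i l m * ((θ : E N) j * (θ : E N) k * (θ : E N) l * (θ : E N) m) := by
    funext θ
    unfold qf
    rw [sq, Finset.sum_mul_sum]
    rw [show (∑ j, ∑ k, ∑ l, ∑ m, T i j k * T i l m * ((θ : E N) j * (θ : E N) k * (θ : E N) l *
      (θ : E N) m)) = ∑ j, ∑ l, ∑ k, ∑ m, T i j k * T i l m * ((θ : E N) j * (θ : E N) k *
      (θ : E N) l * (θ : E N) m) from Finset.sum_congr rfl fun j _ => Finset.sum_comm]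
    refine Finset.sum_congr rfl fun j _ => Finset.sum_congr rfl fun l _ => ?_
    rw [Finset.sum_mul_sum]
    refine Finset.sum_congr rfl fun k _ => Finset.sum_congr rfl fun m _ => ?_
    ring
  have hB : ∀ j k l m, BM (fun θ : Sp N => T i j k * T i l m *
      ((θ : E N) j * (θ : E N) k * (θ : E N) l * (θ : E N) m)) := fun j k l m =>
    BM_cont (by fun_prop)
  rw [e1, av_sum _ fun j _ => BM.sum _ fun k _ => BM.sum _ fun l _ => BM.sum _ fun m _ => hB j k l m]
  have e2 : ∀ j, av (fun θ : Sp N => ∑ k, ∑ l, ∑ m, T i j k * T i l m *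
      ((θ : E N) j * (θ : E N) k * (θ : E N) l * (θ : E N) m)) = ∑ k, ∑ l, ∑ m,
      T i j k * T i l m * (((if j = k ∧ l = m then 1 else 0) + (if j = l ∧ k = m then 1 else 0) +
        (if j = m ∧ k = l then 1 else 0)) / ((N : ℝ) * (N + 2))) := by
    intro j
    rw [av_sum _ fun k _ => BM.sum _ fun l _ => BM.sum _ fun m _ => hB j k l m]
    refine Finset.sum_congr rfl fun k _ => ?_
    rw [av_sum _ fun l _ => BM.sum _ fun m _ => hB j k l m]
    refine Finset.sum_congr rfl fun l _ => ?_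
    rw [av_sum _ fun m _ => hB j k l m]
    refine Finset.sum_congr rfl fun m _ => ?_
    rw [av_const_mul, hm]
  simp only [e2]
  have e3 : ∀ j k l m : Fin N, T i j k * T i l m * (((if j = k ∧ l = m then 1 else 0) +
      (if j = l ∧ k = m then 1 else 0) + (if j = m ∧ k = l then 1 else 0)) /
        ((N : ℝ) * (N + 2))) =
      ((N : ℝ) * (N + 2))⁻¹ * ((if m = l then (if k = j then T i j k * T i l m else 0) else 0) +
        (if m = k then (if l = j then T i j k * T i l m else 0) else 0) +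
        (if m = j then (if l = k then T i j k * T i l m else 0) else 0)) := by
    intro j k l m
    have f1 : (if j = k ∧ l = m then (1 : ℝ) else 0) = if m = l then (if k = j then 1 else 0) else 0 := by
      rw [← ite_and]
      exact if_congr ⟨fun h => ⟨h.2.symm, h.1.symm⟩, fun h => ⟨h.2.symm, h.1.symm⟩⟩ rfl rfl
    have f2 : (if j = l ∧ k = m then (1 : ℝ) else 0) = if m = k then (if l = j then 1 else 0) else 0 := by
      rw [← ite_and]
      exact if_congr ⟨fun h => ⟨h.2.symm, h.1.symm⟩, fun h => ⟨h.2.symm, h.1.symm⟩⟩ rfl rfl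
    have f3 : (if j = m ∧ k = l then (1 : ℝ) else 0) = if m = j then (if l = k then 1 else 0) else 0 := by
      rw [← ite_and]
      exact if_congr ⟨fun h => ⟨h.1.symm, h.2.symm⟩, fun h => ⟨h.1.symm, h.2.symm⟩⟩ rfl rfl
    rw [f1, f2, f3, div_eq_inv_mul]
    split_ifs <;> ring
  simp only [e3]
  simp only [← Finset.mul_sum, Finset.sum_add_distrib]
  have g1 : ∑ j, ∑ k, ∑ l, ∑ m, (if m = l then (if k = j then T i j k * T i l m else 0) else 0) = 0 := by
    refine Finset.sum_eq_zero fun j _ => Finset.sum_eq_zero fun k _ => ?_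
    have : ∀ l, (∑ m, (if m = l then (if k = j then T i j k * T i l m else 0) else 0)) =
        (if k = j then T i j k * T i l l else 0) := by
      intro l
      simp
    simp only [this]
    by_cases hk : k = j
    · simp only [hk, if_true]
      rw [← Finset.mul_sum, h3 i, mul_zero]
    · simp [hk]
  have g2 : ∑ j, ∑ k, ∑ l, ∑ m, (if m = k then (if l = j then T i j k * T i l m else 0) else 0) =
      ∑ j, ∑ k, T i j k ^ 2 := by
    refine Finset.sum_congr rfl fun j _ => Finset.sum_congr rfl fun k _ => ?_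
    simp only [Finset.sum_ite_eq', Finset.mem_univ, if_true]
    ring
  have g3 : ∑ j, ∑ k, ∑ l, ∑ m, (if m = j then (if l = k then T i j k * T i l m else 0) else 0) =
      ∑ j, ∑ k, T i j k ^ 2 := by
    refine Finset.sum_congr rfl fun j _ => Finset.sum_congr rfl fun k _ => ?_
    simp only [Finset.sum_ite_eq', Finset.mem_univ, if_true]
    rw [h2 i k j]
    ring
  rw [g1, g2, g3]
  ring

theorem pf_H6 (_hMP : T_MP) (hST : T_ST) (hMO : T_MO) : T_H6 := by
  intro N T hN h1 h2 h3
  have hN0 : (0 : ℝ) < N := by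
    have : 0 < N := by omega
    exact_mod_cast this
  have e0 : (fun θ : Sp N => (∑ i, ∑ j, ∑ k, T i j k *
      ((θ : E N) i * (θ : E N) j * (θ : E N) k)) ^ 2) = fun θ : Sp N => hf T (θ : E N) ^ 2 := by
    funext θ
    rw [hf_eq]
  have hq : ∀ i, ContDiff ℝ (⊤ : ℕ∞) (qf (T i)) := fun i => qf_contDiff (T i)
  have hh : ContDiff ℝ (⊤ : ℕ∞) (hf T) := hf_contDiff T
  have hg : ∀ i, ContDiff ℝ (⊤ : ℕ∞) (fun x : E N => qf (T i) x * hf T x) := fun i => (hq i).mul hh
  have hd : ∀ i (x v : E N), fderiv ℝ (fun x : E N => qf (T i) x * hf T x) x v =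
      qf (T i) x * fderiv ℝ (hf T) x v + hf T x * fderiv ℝ (qf (T i)) x v := by
    intro i x v
    rw [fderiv_fun_mul ((hq i).differentiable (by simp) x) (hh.differentiable (by simp) x)]
    simp [smul_eq_mul]
  have hqc : ∀ i, Continuous (fun θ : Sp N => qf (T i) (θ : E N)) := fun i =>
    (hq i).continuous.comp continuous_subtype_val
  have hhc : Continuous (fun θ : Sp N => hf T (θ : E N)) := hh.continuous.comp continuous_subtype_val
  have hfc : ∀ i, Continuous (fun θ : Sp N => fderiv ℝ (qf (T i)) (θ : E N)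
      (EuclideanSpace.single i 1)) := fun i =>
    (((hq i).continuous_fderiv (by simp)).clm_apply continuous_const).comp continuous_subtype_val
  have e1 : ∀ i, ((N : ℝ) + 4) * av (fun θ : Sp N => (θ : E N) i * (qf (T i) (θ : E N) *
      hf T (θ : E N))) = av (fun θ : Sp N => 3 * qf (T i) (θ : E N) ^ 2) +
        av (fun θ : Sp N => hf T (θ : E N) * fderiv ℝ (qf (T i)) (θ : E N)
          (EuclideanSpace.single i 1)) := by
    intro i
    have := hST N (fun x : E N => qf (T i) x * hf T x) 5 i hN (hg i) (fun x => by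
      rw [hd, hf_euler, qf_euler]
      ring)
    rw [show (N : ℝ) + 4 = N + 5 - 1 by ring, this, ← av_add (BM_cont (by fun_prop))
      (BM_cont (by fun_prop))]
    congr 1
    funext θ
    rw [hd, hf_single h1 h2]
    ring
  have e2 : av (fun θ : Sp N => hf T (θ : E N) ^ 2) = ∑ i, av (fun θ : Sp N => (θ : E N) i *
      (qf (T i) (θ : E N) * hf T (θ : E N))) := by
    rw [← av_sum _ fun i _ => BM_cont (by fun_prop)]
    congr 1
    funext θ
    rw [sq]
    nth_rewrite 1 [hf]
    rw [Finset.sum_mul]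
    refine Finset.sum_congr rfl fun i _ => ?_
    ring
  have e3 : ∑ i, av (fun θ : Sp N => hf T (θ : E N) * fderiv ℝ (qf (T i)) (θ : E N)
          (EuclideanSpace.single i 1)) = 0 := by
    rw [← av_sum _ fun i _ => BM_cont (by fun_prop)]
    have : (fun θ : Sp N => ∑ i, hf T (θ : E N) * fderiv ℝ (qf (T i)) (θ : E N)
          (EuclideanSpace.single i 1)) = fun _ => 0 := by
      funext θ
      rw [← Finset.mul_sum, trace_zero h1 h2 h3, mul_zero]
    rw [this, av_zero]
  have e4 : ((N : ℝ) + 4) * av (fun θ : Sp N => hf T (θ : E N) ^ 2) =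
      ∑ i, 3 * (2 * (∑ j, ∑ k, T i j k ^ 2) / ((N : ℝ) * (N + 2))) := by
    rw [e2, Finset.mul_sum]
    simp only [e1]
    rw [Finset.sum_add_distrib, e3, add_zero]
    refine Finset.sum_congr rfl fun i _ => ?_
    rw [av_const_mul, qf_sq hN hMO h3 h2]
  rw [e0]
  have e5 : ∑ i, 3 * (2 * (∑ j, ∑ k, T i j k ^ 2) / ((N : ℝ) * (N + 2))) =
      6 / ((N : ℝ) * (N + 2)) * ∑ i, ∑ j, ∑ k, T i j k ^ 2 := by
    rw [Finset.mul_sum]
    refine Finset.sum_congr rfl fun i _ => ?_
    ring
  rw [e5] at e4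
  have h4 : ((N : ℝ) + 4) ≠ 0 := by positivity
  apply mul_left_cancel₀ h4
  rw [e4]
  field_simp

end Pool.Agent.H61.LQ
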